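import Pool.Agent.Lib.MP_e4fca8_an.Both

open MeasureTheory Pool.Agent.Lib.MP_e4fca8_an

namespace Pool.Agent.Results.MP_e4fca8_an.Counterexample

theorem result :
    ∃ θ t q : ℝ, 0 < θ ∧ θ < 1 ∧ 1 < t ∧ t ≤ 2 ∧ 2 ≤ q ∧
    ∃ (X : Type) (_ : NormedAddCommGroup X) (_ : NormedSpace ℂ X) (_ : CompleteSpace X)
      (Y : Type) (_ : NormedAddCommGroup Y) (_ : NormedSpace ℂ Y) (_ : CompleteSpace Y),
      IsIntermediateUMD θ X ∧ HasCotype X q ∧ IsUMD Y ∧ HasType Y t ∧ IsIntermediateUMD θ Y ∧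
      ∀ s : ℝ, 1 ≤ s → s < 2 / (2 - θ) →
        ∃ m : ℝ → X →L[ℂ] Y, StronglyMeasurable m ∧ RBounded (Set.range m) ∧
          DyadicVariationBounded s m ∧ ∃ p : ℝ, s < p ∧ ¬ MultiplierBounded p m :=
  ⟨1 / 3, 2, 3, by norm_num, by norm_num, by norm_num, le_rfl, by norm_num,
    LP 3, inferInstance, inferInstance, inferInstance,
    ℂ, inferInstance, inferInstance, inferInstance,
    interp_three, cotype_three, umd_complex, type_two,
    interp_complex (by norm_num) (by norm_num), fun s h1 h2 =>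
    ⟨sym3, sym3_meas, sym3_rbounded, sym3_var h1, 12, h2.trans (by norm_num), sym3_unbounded⟩⟩

end Pool.Agent.Results.MP_e4fca8_an.Counterexample
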